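import Mathlib
import Pool.Agent.Lib.MP_01ee34_gt.Common

set_option autoImplicit false

namespace Pool.Agent.Results.MP_01ee34_gt.CommonSet

/-- Disproof of Q1 with one common set: whenever m + 2 ≤ d and d + 2 ≤ 2 m (for instance d = 6,
m = 4) the unit sphere S^d has a closed cover F_1, ..., F_m and one set A of d - m + 3 points of S^d
such that no linear isometry of R^(d+1), so no rotation, moves A into any of the F_i. -/
theorem result (d m : ℕ) (h1 : m + 2 ≤ d) (h2 : d + 2 ≤ 2 * m) :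
    ∃ F : Fin m → Set (EuclideanSpace ℝ (Fin (d + 1))),
      (∀ i, IsClosed (F i)) ∧ (⋃ i, F i) = Metric.sphere 0 1 ∧
      ∃ A : Finset (EuclideanSpace ℝ (Fin (d + 1))),
        (A : Set (EuclideanSpace ℝ (Fin (d + 1)))) ⊆ Metric.sphere 0 1 ∧
        (A.card : ℤ) = d - m + 3 ∧
        ∀ i, ∀ ρ : EuclideanSpace ℝ (Fin (d + 1)) ≃ₗᵢ[ℝ] EuclideanSpace ℝ (Fin (d + 1)),
          ¬ (ρ '' (A : Set (EuclideanSpace ℝ (Fin (d + 1)))) ⊆ F i) :=
  Pool.Agent.Lib.MP_01ee34_gt.Common.main d m h1 h2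

end Pool.Agent.Results.MP_01ee34_gt.CommonSet
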