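import Mathlib
import Pool.Agent.Lib.MP_01ee34_gt.Basic

set_option autoImplicit false

namespace Pool.Agent.Results.MP_01ee34_gt.Counterexample

/-- Disproof of Q1: for every m ≥ 2 and every d with 7 m ≤ 2 d + 11 (for instance m = 2 and any
d ≥ 2) the unit sphere S^d has a closed cover F_1, ..., F_m such that each F_i misses some set A_i of
d - m + 3 points of S^d: no linear isometry of R^(d+1), so no rotation, moves A_i into F_i. -/
theorem result (d m : ℕ) (hm : 2 ≤ m) (hd : 7 * m ≤ 2 * d + 11) :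
    ∃ F : Fin m → Set (EuclideanSpace ℝ (Fin (d + 1))),
      (∀ i, IsClosed (F i)) ∧ (⋃ i, F i) = Metric.sphere 0 1 ∧
      ∀ i, ∃ A : Finset (EuclideanSpace ℝ (Fin (d + 1))),
        (A : Set (EuclideanSpace ℝ (Fin (d + 1)))) ⊆ Metric.sphere 0 1 ∧
        (A.card : ℤ) = d - m + 3 ∧
        ∀ ρ : EuclideanSpace ℝ (Fin (d + 1)) ≃ₗᵢ[ℝ] EuclideanSpace ℝ (Fin (d + 1)),
          ¬ (ρ '' (A : Set (EuclideanSpace ℝ (Fin (d + 1)))) ⊆ F i) :=
  Pool.Agent.Lib.MP_01ee34_gt.main d m hm hd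

end Pool.Agent.Results.MP_01ee34_gt.Counterexample
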